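import Pool.Agent.V7H85.BU.F

set_option autoImplicit false

/-! # Free Burnside groups of smaller exponent as sections -/

namespace Pool.Agent.V7H85.BU

open Subgroup Pool.Agent.H32BU Pool.Agent.R669

theorem section_any {r m n : ℕ} (hr : 1 ≤ r) (hQ : Finite (Bu r m)) :
    ∃ (L : Subgroup (Bu r (m * n))) (f : L →* Bu ((r - 1) * Nat.card (Bu r m) + 1) n),
      Function.Surjective f := by
  set H := Bu ((r - 1) * Nat.card (Bu r m) + 1) n with hH
  obtain ⟨e, he⟩ := schreier (H := H) hr (bgen r m) (closure_bgen r m)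
    (bgen ((r - 1) * Nat.card (Bu r m) + 1) n)
  have hG : ∀ x : H, x ^ n = 1 := bu_exp _ n
  obtain ⟨F, hF⟩ := exists_hom (wr_exp hG (bu_exp r m)) e
  let L : Subgroup (Bu r (m * n)) := (base H (Bu r m)).comap F
  let φ : L →* H := (evh H (Bu r m)).comp (F.subgroupComap (base H (Bu r m)))
  refine ⟨L, φ, fun x => ?_⟩
  rw [closure_bgen, ← hF] at he
  obtain ⟨w, ⟨b, rfl⟩, hw1, hx⟩ := he (mem_top x)
  exact ⟨⟨b, hw1⟩, hx⟩

theorem section_sylow {B H : Type*} [Group B] [Finite B] [Group H] {p : ℕ} [Fact p.Prime]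
    (hH : IsPGroup p H) (L : Subgroup B) (φ : L →* H) (hφ : Function.Surjective φ) :
    ∃ (P : Sylow p B) (T : Subgroup B), T ≤ (P : Subgroup B) ∧
      ∃ f : T →* H, Function.Surjective f := by
  obtain ⟨P0⟩ : Nonempty (Sylow p L) := inferInstance
  have h1 := sylow_onto hH φ hφ P0
  have h4 : IsPGroup p ((P0 : Subgroup L).map L.subtype) := P0.isPGroup'.map _
  obtain ⟨P, hP⟩ := h4.exists_le_sylow
  refine ⟨P, (P0 : Subgroup L).map L.subtype, hP, ?_⟩
  let g : (P0 : Subgroup L) ≃* (P0 : Subgroup L).map L.subtype :=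
    (P0 : Subgroup L).equivMapOfInjective L.subtype L.subtype_injective
  refine ⟨(φ.comp (P0 : Subgroup L).subtype).comp g.symm.toMonoidHom, fun x => ?_⟩
  have h2 : x ∈ (P0 : Subgroup L).map φ := h1 ▸ mem_top x
  obtain ⟨y, hy, rfl⟩ := h2
  refine ⟨g ⟨y, hy⟩, ?_⟩
  simp

theorem section_bu {p e m r : ℕ} (hp : p.Prime) (hr : 1 ≤ r) (hfin : Finite (Bu r (m * p ^ e))) :
    ∃ (P : Sylow p (Bu r (m * p ^ e))) (T : Subgroup (Bu r (m * p ^ e))),
      T ≤ (P : Subgroup (Bu r (m * p ^ e))) ∧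
      ∃ f : T →* Bu ((r - 1) * Nat.card (Bu r m) + 1) (p ^ e), Function.Surjective f := by
  have : Fact p.Prime := ⟨hp⟩
  have hQ : Finite (Bu r m) := by
    obtain ⟨F, hF⟩ := surj r m (p ^ e)
    exact Finite.of_surjective F hF
  obtain ⟨L, f, hf⟩ := section_any (n := p ^ e) hr hQ
  exact section_sylow (fun g => ⟨e, bu_exp _ _ g⟩) L f hf

theorem small_of_section {B H : Type*} [Group B] [Group H] {k : ℕ} (T : Subgroup B) (f : T →* H)
    (hf : Function.Surjective f) (h : Small k T) : Small k (⊤ : Subgroup H) := by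
  have h1 : Small k (⊤ : Subgroup T) := (small_top k).2 ((small_iff k T).1 h)
  have h2 := h1.map f
  rw [← MonoidHom.range_eq_map, MonoidHom.range_eq_top.2 hf] at h2
  exact h2

theorem small_sylow {B : Type*} [Group B] [Finite B] {p k : ℕ} [Fact p.Prime] (P P' : Sylow p B)
    (h : Small k (P : Subgroup B)) : Small k (P' : Subgroup B) := by
  let g : (P : Subgroup B) ≃* (P' : Subgroup B) := Sylow.equiv P P'
  have h1 : Small k (⊤ : Subgroup (P : Subgroup B)) := (small_top k).2 ((small_iff k _).1 h)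
  have h2 := h1.map ((P' : Subgroup B).subtype.comp g.toMonoidHom)
  have h3 : (⊤ : Subgroup (P : Subgroup B)).map ((P' : Subgroup B).subtype.comp g.toMonoidHom) =
      (P' : Subgroup B) := by
    ext x
    constructor
    · rintro ⟨y, -, rfl⟩
      exact (g y).2
    · intro hx
      exact ⟨g.symm ⟨x, hx⟩, mem_top _, by simp⟩
  rw [h3] at h2
  exact h2

end Pool.Agent.V7H85.BU
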