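import Mathlib
import Pool.Agent.W465.SG.Grp

set_option autoImplicit false

/-! # Derived length and class of the `k`-generator subgroups -/

namespace Pool.Agent.V7H85.BU

open Subgroup
open scoped commutatorElement

variable {G : Type*} [Group G]

/-- the derived series of a subgroup, as subgroups of the ambient group -/
def dd (H : Subgroup G) : ℕ → Subgroup G
  | 0 => H
  | n + 1 => ⁅dd H n, dd H n⁆

theorem dd_mono {H K : Subgroup G} (h : H ≤ K) (n : ℕ) : dd H n ≤ dd K n := by
  induction n with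
  | zero => exact h
  | succ n ih => exact commutator_mono ih ih

theorem lcs_mono {H K : Subgroup G} (h : H ≤ K) (n : ℕ) :
    H.lowerCentralSeries n ≤ K.lowerCentralSeries n := by
  induction n with
  | zero => exact h
  | succ n ih => exact commutator_mono ih h

theorem map_dd {G' : Type*} [Group G'] (f : G →* G') (H : Subgroup G) (n : ℕ) :
    (dd H n).map f = dd (H.map f) n := by
  induction n with
  | zero => rfl
  | succ n ih => rw [dd, dd, map_commutator, ih]

theorem dd_top (n : ℕ) : dd (⊤ : Subgroup G) n = derivedSeries G n := by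
  induction n with
  | zero => rfl
  | succ n ih => rw [dd, derivedSeries_succ, ih]

theorem map_derivedSeries_subtype (H : Subgroup G) (n : ℕ) :
    (derivedSeries H n).map H.subtype = dd H n := by
  rw [← dd_top, map_dd, ← MonoidHom.range_eq_map, range_subtype]

theorem dd_eq_bot_iff (H : Subgroup G) (n : ℕ) : dd H n = ⊥ ↔ derivedSeries H n = ⊥ := by
  rw [← map_derivedSeries_subtype, map_eq_bot_iff_of_injective _ H.subtype_injective]

theorem conj_dd (H : Subgroup G) (n : ℕ) {h x : G} (hh : h ∈ H) (hx : x ∈ dd H n) :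
    h * x * h⁻¹ ∈ dd H n := by
  rw [← map_derivedSeries_subtype] at hx ⊢
  obtain ⟨y, hy, rfl⟩ := hx
  exact ⟨⟨h, hh⟩ * y * ⟨h, hh⟩⁻¹, (derivedSeries_normal H n).conj_mem y hy _, rfl⟩

/-- a group without abelian normal subgroups: some conjugate does not commute -/
theorem exists_conj (hG : ∀ A : Subgroup G, A.Normal → (∀ x ∈ A, ∀ y ∈ A, x * y = y * x) → A = ⊥)
    {x : G} (hx : x ≠ 1) : ∃ h : G, ⁅x, h * x * h⁻¹⁆ ≠ 1 := by
  by_contra hcon
  push Not at hcon
  have h1 : ∀ g h : G, Commute (g * x * g⁻¹) (h * x * h⁻¹) := by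
    intro g h
    have h2 := commutatorElement_eq_one_iff_commute.1 (hcon (g⁻¹ * h))
    have h5 := h2.map (MulAut.conj g).toMonoidHom
    have e1 : (MulAut.conj g).toMonoidHom x = g * x * g⁻¹ := rfl
    have e2 : (MulAut.conj g).toMonoidHom (g⁻¹ * h * x * (g⁻¹ * h)⁻¹) = h * x * h⁻¹ := by
      show g * (g⁻¹ * h * x * (g⁻¹ * h)⁻¹) * g⁻¹ = h * x * h⁻¹
      group
    rw [e1, e2] at h5
    exact h5
  set S : Set G := Set.range fun g : G => g * x * g⁻¹ with hS
  have hSS : ∀ a ∈ S, ∀ b ∈ S, a * b = b * a := by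
    rintro _ ⟨g, rfl⟩ _ ⟨h, rfl⟩
    exact h1 g h
  have hn : (closure S).Normal := by
    constructor
    intro y hy g
    induction hy using closure_induction with
    | mem y hy =>
      obtain ⟨h, rfl⟩ := hy
      exact subset_closure ⟨g * h, by group⟩
    | one => simp
    | mul a b _ _ ha hb =>
      have : g * (a * b) * g⁻¹ = (g * a * g⁻¹) * (g * b * g⁻¹) := by group
      rw [this]
      exact mul_mem ha hb
    | inv a _ ha =>
      have : g * a⁻¹ * g⁻¹ = (g * a * g⁻¹)⁻¹ := by group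
      rw [this]
      exact inv_mem ha
  have hab : ∀ a ∈ closure S, ∀ b ∈ closure S, a * b = b * a := by
    have h2 : S ⊆ centralizer S := fun a ha => mem_centralizer_iff.2 fun b hb => hSS b hb a ha
    have h3 : closure S ≤ centralizer S := (closure_le _).2 h2
    have h4 : S ⊆ centralizer (closure S : Set G) := fun a ha =>
      mem_centralizer_iff.2 fun b hb => (mem_centralizer_iff.1 (h3 hb) a ha).symm
    have h5 : closure S ≤ centralizer (closure S : Set G) := (closure_le _).2 h4
    exact fun a ha b hb => (mem_centralizer_iff.1 (h5 ha) b hb).symm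
  have h6 := hG _ hn hab
  have h7 : x ∈ closure S := subset_closure ⟨1, by simp⟩
  rw [h6, mem_bot] at h7
  exact hx h7

theorem mem_cons_left {j : ℕ} (h : G) (a : Fin j → G) :
    closure (Set.range a) ≤ closure (Set.range (Fin.cons h a : Fin (j + 1) → G)) := by
  apply Subgroup.closure_mono
  rintro _ ⟨i, rfl⟩
  exact ⟨i.succ, by simp⟩

theorem mem_cons_zero {j : ℕ} (h : G) (a : Fin j → G) :
    h ∈ closure (Set.range (Fin.cons h a : Fin (j + 1) → G)) :=
  subset_closure ⟨0, by simp⟩

theorem exists_mem_ne {H : Subgroup G} (h : H ≠ ⊥) : ∃ x ∈ H, x ≠ 1 := by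
  by_contra hcon
  push Not at hcon
  exact h ((Subgroup.eq_bot_iff_forall H).2 hcon)

/-- **Growth of the derived length.** -/
theorem exists_dd [Nontrivial G]
    (hG : ∀ A : Subgroup G, A.Normal → (∀ x ∈ A, ∀ y ∈ A, x * y = y * x) → A = ⊥) (k : ℕ) :
    ∃ a : Fin (k + 1) → G, dd (closure (Set.range a)) k ≠ ⊥ := by
  induction k with
  | zero =>
    obtain ⟨x, hx⟩ := exists_ne (1 : G)
    refine ⟨fun _ => x, fun h => hx ?_⟩
    have h1 : x ∈ closure (Set.range fun _ : Fin (0 + 1) => x) := subset_closure ⟨0, rfl⟩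
    have h2 : closure (Set.range fun _ : Fin (0 + 1) => x) = ⊥ := h
    rw [h2, mem_bot] at h1
    exact h1
  | succ k ih =>
    obtain ⟨a, ha⟩ := ih
    obtain ⟨x, hx, hx1⟩ := exists_mem_ne ha
    obtain ⟨h, hh⟩ := exists_conj hG hx1
    refine ⟨Fin.cons h a, fun hbot => hh ?_⟩
    have h1 : x ∈ dd (closure (Set.range (Fin.cons h a : Fin (k + 2) → G))) k :=
      dd_mono (mem_cons_left h a) k hx
    have h2 := conj_dd _ k (mem_cons_zero h a) h1
    have h3 := commutator_mem_commutator h1 h2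
    have h4 : ⁅x, h * x * h⁻¹⁆ ∈
        dd (closure (Set.range (Fin.cons h a : Fin (k + 2) → G))) (k + 1) := h3
    rw [hbot, mem_bot] at h4
    exact h4

/-- **Growth of the class.** -/
theorem exists_lcs [Nontrivial G]
    (hG : ∀ A : Subgroup G, A.Normal → (∀ x ∈ A, ∀ y ∈ A, x * y = y * x) → A = ⊥) (k : ℕ) :
    ∃ a : Fin (k + 1) → G, (closure (Set.range a)).lowerCentralSeries (2 ^ (k + 1) - 2) ≠ ⊥ := by
  induction k with
  | zero =>
    obtain ⟨x, hx⟩ := exists_ne (1 : G)
    refine ⟨fun _ => x, fun h => hx ?_⟩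
    have h1 : x ∈ closure (Set.range fun _ : Fin (0 + 1) => x) := subset_closure ⟨0, rfl⟩
    have h2 : closure (Set.range fun _ : Fin (0 + 1) => x) = ⊥ := h
    rw [h2, mem_bot] at h1
    exact h1
  | succ k ih =>
    obtain ⟨a, ha⟩ := ih
    obtain ⟨x, hx, hx1⟩ := exists_mem_ne ha
    obtain ⟨h, hh⟩ := exists_conj hG hx1
    set F := closure (Set.range (Fin.cons h a : Fin (k + 2) → G)) with hF
    set c := 2 ^ (k + 1) - 2 with hc
    have hpow : 2 ≤ 2 ^ (k + 1) := by
      calc 2 = 2 ^ 1 := rfl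
        _ ≤ 2 ^ (k + 1) := Nat.pow_le_pow_right (by norm_num) (by omega)
    have h1 : x ∈ F.lowerCentralSeries c :=
      (lcs_mono (mem_cons_left h a) c) hx
    have h2 : ⁅x, h⁆ ∈ F.lowerCentralSeries (c + 1) :=
      commutator_mem_commutator h1 (mem_cons_zero h a)
    have h3 : ⁅x, ⁅x, h⁆⁻¹⁆ ∈ F.lowerCentralSeries (c + (c + 1) + 1) :=
      Pool.Agent.W465.SG.comm_lcs F (c + 1) c (commutator_mem_commutator h1 (inv_mem h2))
    have e1 : c + (c + 1) + 1 = 2 ^ (k + 1 + 1) - 2 := by
      rw [pow_succ 2 (k + 1)]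
      omega
    have e2 : h * x * h⁻¹ = ⁅x, h⁆⁻¹ * x := by
      simp only [commutatorElement_def]
      group
    refine ⟨Fin.cons h a, fun hbot => hh ?_⟩
    rw [e1, hbot, mem_bot] at h3
    rw [commutatorElement_eq_one_iff_commute] at h3 ⊢
    rw [e2]
    exact h3.mul_right (Commute.refl x)

end Pool.Agent.V7H85.BU
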