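import Pool.Agent.V7H85.BU.A
import Pool.Agent.TH69.MtnG

set_option autoImplicit false

/-! # Hyperabelian groups and local finiteness -/

namespace Pool.Agent.V7H85.BU

open Subgroup Pool.Agent.H32BU
open scoped commutatorElement

/-- Hyperabelian groups: every nontrivial quotient has a nontrivial abelian normal subgroup. -/
def Hyp (G : Type*) [Group G] : Prop :=
  ∀ (N : Subgroup G) [N.Normal], N ≠ ⊤ → ∃ A : Subgroup (G ⧸ N), A.Normal ∧ A ≠ ⊥ ∧
    ∀ x ∈ A, ∀ y ∈ A, x * y = y * x

section hyp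

variable {G : Type*} [Group G]

theorem lift_family (N : Subgroup G) [N.Normal] {k : ℕ} (a : Fin k → G ⧸ N) :
    ∃ b : Fin k → G, (closure (Set.range b)).map (QuotientGroup.mk' N) = closure (Set.range a) := by
  choose b hb using fun i => QuotientGroup.mk'_surjective N (a i)
  refine ⟨b, ?_⟩
  rw [MonoidHom.map_closure]
  congr 1
  ext x
  constructor
  · rintro ⟨_, ⟨i, rfl⟩, rfl⟩
    exact ⟨i, (hb i).symm⟩
  · rintro ⟨i, rfl⟩
    exact ⟨b i, ⟨i, rfl⟩, hb i⟩

theorem hyp_of_dd {k : ℕ} (h : ∀ a : Fin (k + 1) → G, dd (closure (Set.range a)) k = ⊥) :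
    Hyp G := by
  intro N _ hN
  by_contra hcon
  push Not at hcon
  have hnt : Nontrivial (G ⧸ N) := QuotientGroup.nontrivial_iff.2 hN
  obtain ⟨a, ha⟩ := exists_dd (G := G ⧸ N) (fun A hA hab => by
    by_contra hne
    obtain ⟨x, hx, y, hy, hxy⟩ := hcon A hA hne
    exact hxy (hab x hx y hy)) k
  obtain ⟨b, hb⟩ := lift_family N a
  rw [← hb, ← map_dd, h b, Subgroup.map_bot] at ha
  exact ha rfl

theorem hyp_of_lcs {k : ℕ} (h : ∀ a : Fin (k + 1) → G,
    (closure (Set.range a)).lowerCentralSeries (2 ^ (k + 1) - 2) = ⊥) : Hyp G := by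
  intro N _ hN
  by_contra hcon
  push Not at hcon
  have hnt : Nontrivial (G ⧸ N) := QuotientGroup.nontrivial_iff.2 hN
  obtain ⟨a, ha⟩ := exists_lcs (G := G ⧸ N) (fun A hA hab => by
    by_contra hne
    obtain ⟨x, hx, y, hy, hxy⟩ := hcon A hA hne
    exact hxy (hab x hx y hy)) k
  obtain ⟨b, hb⟩ := lift_family N a
  rw [← hb, ← map_lowerCentralSeries, h b, Subgroup.map_bot] at ha
  exact ha rfl

end hyp

theorem lf_of_comm {A : Type} [Group A] (hc : ∀ x y : A, x * y = y * x)
    (ht : ∀ x : A, IsOfFinOrder x) : LF A := by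
  intro S
  let iA : CommGroup (closure (S : Set A)) :=
    { (inferInstance : Group (closure (S : Set A))) with
      mul_comm := fun x y => Subtype.ext (hc x y) }
  have hfg : Group.FG (closure (S : Set A)) :=
    (Group.fg_iff_subgroup_fg _).2 ⟨S, rfl⟩
  refine CommGroup.finite_of_fg_isMulTorsion (closure (S : Set A)) (fun x => ?_)
  exact Submonoid.isOfFinOrder_coe (H := (closure (S : Set A)).toSubmonoid) (x := x) |>.1 (ht x)

/-- Periodic hyperabelian groups are locally finite. -/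
theorem lf_of_hyp {G : Type} [Group G] (ht : ∀ x : G, IsOfFinOrder x) (h : Hyp G) : LF G := by
  obtain ⟨M, hM, hML, hMmax⟩ := Pool.Agent.TH69.Mtn.exists_radical G
  by_cases hT : M = ⊤
  · subst hT
    exact x_LFS.2.1 G _ (Subgroup.topEquiv.symm : G ≃* (⊤ : Subgroup G)).toMonoidHom
      (Subgroup.topEquiv.symm : G ≃* (⊤ : Subgroup G)).injective hML
  exfalso
  obtain ⟨A, hA, hA0, hAc⟩ := h M hT
  obtain ⟨x, hx, hx1⟩ := exists_mem_ne hA0
  obtain ⟨g, rfl⟩ := QuotientGroup.mk_surjective x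
  set K := A.comap (QuotientGroup.mk' M) with hK
  have hKn : K.Normal := inferInstance
  have hML' : LF (M.subgroupOf K) := by
    refine x_LFS.2.1 _ M
      { toFun := fun x => ⟨(x : K), x.2⟩
        map_one' := rfl
        map_mul' := fun _ _ => rfl } ?_ hML
    intro a b hab
    have : ((a : K) : G) = ((b : K) : G) := congrArg (fun z : ↥M => (z : G)) hab
    exact Subtype.ext (Subtype.ext this)
  have hKL : LF K := by
    refine x_SCH _ (M.subgroupOf K) hML' (lf_of_comm ?_ ?_)
    · intro a b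
      obtain ⟨a, rfl⟩ := QuotientGroup.mk_surjective a
      obtain ⟨b, rfl⟩ := QuotientGroup.mk_surjective b
      rw [← QuotientGroup.mk_mul, ← QuotientGroup.mk_mul, QuotientGroup.eq, mem_subgroupOf]
      have h1 := hAc _ a.2 _ b.2
      have h2 : (((a * b : K) : G) : G ⧸ M) = (((b * a : K) : G) : G ⧸ M) := h1
      rw [QuotientGroup.eq] at h2
      exact h2
    · intro a
      obtain ⟨a, rfl⟩ := QuotientGroup.mk_surjective a
      have h1 : IsOfFinOrder a := Submonoid.isOfFinOrder_coe (H := K.toSubmonoid) (x := a) |>.1 (ht a)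
      exact (QuotientGroup.mk' (M.subgroupOf K)).isOfFinOrder h1
  have h3 := hMmax K hKn hKL (show g ∈ K from hx)
  exact hx1 ((QuotientGroup.eq_one_iff g).2 h3)

end Pool.Agent.V7H85.BU
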