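import Pool.Agent.V7H85.BU.A
import Pool.Agent.R669.Wreath

set_option autoImplicit false

/-! # Schreier generators in wreath products -/

namespace Pool.Agent.V7H85.BU

open Subgroup Pool.Agent.R669
open scoped commutatorElement

section tree

variable {Q : Type} [Group Q] {r : ℕ}

/-- A spanning tree of the Cayley graph. -/
theorem exists_tree (hr : 1 ≤ r) (s : Fin r → Q) (hs : ∀ q : Q, ∃ l : List (Fin r), (l.map s).prod = q) :
    ∃ (n : Q → ℕ) (τ : Q → Q × Fin r), ∀ q, q ≠ 1 →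
      (s (τ q).2)⁻¹ * (τ q).1 = q ∧ n (τ q).1 < n q := by
  classical
  have h1 : ∀ q : Q, ∃ m : ℕ, ∃ l : List (Fin r), l.length = m ∧ (l.map s).prod = q⁻¹ := by
    intro q
    obtain ⟨l, hl⟩ := hs q⁻¹
    exact ⟨_, l, rfl, hl⟩
  let n : Q → ℕ := fun q => Nat.find (h1 q)
  have h2 : ∀ q : Q, ∃ e : Q × Fin r, q ≠ 1 → (s e.2)⁻¹ * e.1 = q ∧ n e.1 < n q := by
    intro q
    by_cases hq : q = 1
    · exact ⟨(1, ⟨0, hr⟩), fun h => absurd hq h⟩
    · obtain ⟨l, hl, hlp⟩ := Nat.find_spec (h1 q)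
      rcases List.eq_nil_or_concat l with h0 | ⟨l', b, rfl⟩
      · subst h0
        simp only [List.map_nil, List.prod_nil] at hlp
        exact absurd (inv_eq_one.1 hlp.symm) hq
      · rw [List.concat_eq_append] at hl hlp
        refine ⟨(((l'.map s).prod)⁻¹, b), fun _ => ⟨?_, ?_⟩⟩
        · rw [List.map_append, List.prod_append, List.map_singleton, List.prod_singleton] at hlp
          show (s b)⁻¹ * ((l'.map s).prod)⁻¹ = q
          rw [← mul_inv_rev, hlp, inv_inv]
        · have h3 : n (((l'.map s).prod)⁻¹) ≤ l'.length :=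
            Nat.find_min' (h1 _) ⟨l', rfl, by rw [inv_inv]⟩
          have h4 : l'.length + 1 = n q := by
            rw [List.length_append, List.length_singleton] at hl
            exact hl
          show n (((l'.map s).prod)⁻¹) < n q
          omega
  choose τ hτ using h2
  exact ⟨n, τ, hτ⟩

theorem exists_list [Finite Q] (s : Fin r → Q) (hs : closure (Set.range s) = ⊤) (q : Q) :
    ∃ l : List (Fin r), (l.map s).prod = q := by
  have h1 : q ∈ Submonoid.closure (Set.range s) := by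
    rw [← Subgroup.closure_toSubmonoid_of_finite, hs]
    exact mem_top q
  induction h1 using Submonoid.closure_induction with
  | mem x hx =>
    obtain ⟨i, rfl⟩ := hx
    exact ⟨[i], by simp⟩
  | one => exact ⟨[], rfl⟩
  | mul x y _ _ hx hy =>
    obtain ⟨l, rfl⟩ := hx
    obtain ⟨l', rfl⟩ := hy
    exact ⟨l ++ l', by simp⟩

end tree

section wr

variable {H Q : Type} [Group H] [Group Q] {r : ℕ}

/-- the generators -/
def gens (s : Fin r → Q) (lab : Q → Fin r → H) (b : Fin r) : RegularWreathProduct H Q :=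
  ⟨fun q => lab q b, s b⟩

theorem path (s : Fin r → Q) (lab : Q → Fin r → H) (n : Q → ℕ) (τ : Q → Q × Fin r)
    (hτ : ∀ q, q ≠ 1 → (s (τ q).2)⁻¹ * (τ q).1 = q ∧ n (τ q).1 < n q)
    (hlab : ∀ q, q ≠ 1 → lab (τ q).1 (τ q).2 = 1) :
    ∀ (N : ℕ) (q : Q), n q ≤ N → ∃ w ∈ closure (Set.range (gens s lab)),
      w.right = q⁻¹ ∧ w.left 1 = 1 := by
  intro N
  induction N with
  | zero =>
    intro q hq
    by_cases h1 : q = 1
    · subst h1
      exact ⟨1, one_mem _, by simp, rfl⟩
    · have := (hτ q h1).2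
      omega
  | succ N ih =>
    intro q hq
    by_cases h1 : q = 1
    · subst h1
      exact ⟨1, one_mem _, by simp, rfl⟩
    · obtain ⟨h2, h3⟩ := hτ q h1
      obtain ⟨w, hw, hwr, hwl⟩ := ih (τ q).1 (by omega)
      refine ⟨w * gens s lab (τ q).2, mul_mem hw (subset_closure ⟨_, rfl⟩), ?_, ?_⟩
      · rw [RegularWreathProduct.mul_right, hwr]
        show (τ q).1⁻¹ * s (τ q).2 = q⁻¹
        have h4 : q⁻¹ = ((s (τ q).2)⁻¹ * (τ q).1)⁻¹ := by rw [h2]
        rw [h4, mul_inv_rev, inv_inv]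
      · rw [RegularWreathProduct.mul_left, Pi.mul_apply, hwl, hwr, one_mul]
        show lab ((τ q).1⁻¹⁻¹ * 1) (τ q).2 = 1
        rw [inv_inv, mul_one]
        exact hlab q h1

theorem edge (s : Fin r → Q) (lab : Q → Fin r → H) (n : Q → ℕ) (τ : Q → Q × Fin r)
    (hτ : ∀ q, q ≠ 1 → (s (τ q).2)⁻¹ * (τ q).1 = q ∧ n (τ q).1 < n q)
    (hlab : ∀ q, q ≠ 1 → lab (τ q).1 (τ q).2 = 1) (q : Q) (b : Fin r) :
    lab q b ∈ ev1 (closure (Set.range (gens s lab))) := by
  obtain ⟨w, hw, hwr, hwl⟩ := path s lab n τ hτ hlab _ q le_rfl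
  obtain ⟨v, hv, hvr, hvl⟩ := path s lab n τ hτ hlab _ ((s b)⁻¹ * q) le_rfl
  refine ⟨w * gens s lab b * v⁻¹, mul_mem (mul_mem hw (subset_closure ⟨_, rfl⟩)) (inv_mem hv),
    ?_, ?_⟩
  · rw [RegularWreathProduct.mul_right, RegularWreathProduct.mul_right,
      RegularWreathProduct.inv_right, hwr, hvr]
    show q⁻¹ * s b * ((s b)⁻¹ * q)⁻¹⁻¹ = 1
    group
  · rw [RegularWreathProduct.mul_left, Pi.mul_apply, RegularWreathProduct.mul_left, Pi.mul_apply,
      hwl, RegularWreathProduct.inv_left, RegularWreathProduct.mul_right, hwr, one_mul]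
    show lab (q⁻¹⁻¹ * 1) b * (v.left (v.right * ((q⁻¹ * s b)⁻¹ * 1)))⁻¹ = lab q b
    have e : v.right * ((q⁻¹ * s b)⁻¹ * 1) = 1 := by
      rw [hvr]
      group
    rw [e, hvl, inv_inv, mul_one, inv_one, mul_one]

/-- **Schreier generators.** `(r - 1) |Q| + 1` elements from `r` generators. -/
theorem schreier [Finite Q] (hr : 1 ≤ r) (s : Fin r → Q) (hs : closure (Set.range s) = ⊤)
    (x : Fin ((r - 1) * Nat.card Q + 1) → H) :
    ∃ e : Fin r → RegularWreathProduct H Q,
      closure (Set.range x) ≤ ev1 (closure (Set.range e)) := by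
  classical
  have := Fintype.ofFinite Q
  obtain ⟨n, τ, hτ⟩ := exists_tree hr s (exists_list s hs)
  set T : Finset (Q × Fin r) := (Finset.univ.erase (1 : Q)).image τ with hT
  have hTc : T.card ≤ Nat.card Q - 1 := by
    refine Finset.card_image_le.trans ?_
    rw [Finset.card_erase_of_mem (Finset.mem_univ _), Finset.card_univ, Nat.card_eq_fintype_card]
  have hQ : 1 ≤ Nat.card Q := Nat.card_pos
  have hcard : Fintype.card (Fin ((r - 1) * Nat.card Q + 1)) ≤ (Finset.univ \ T).card := by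
    rw [Finset.card_sdiff_of_subset (Finset.subset_univ _), Finset.card_univ, Fintype.card_prod,
      Fintype.card_fin, Fintype.card_fin, ← Nat.card_eq_fintype_card]
    obtain ⟨r', rfl⟩ : ∃ r', r = r' + 1 := ⟨r - 1, by omega⟩
    have h1 : Nat.card Q * (r' + 1) = r' * Nat.card Q + Nat.card Q := by ring
    simp only [Nat.add_sub_cancel]
    omega
  obtain ⟨ι⟩ : Nonempty (Fin ((r - 1) * Nat.card Q + 1) ↪ (Finset.univ \ T : Finset (Q × Fin r))) := by
    apply Function.Embedding.nonempty_of_card_le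
    rw [Fintype.card_coe]
    exact hcard
  let lab : Q → Fin r → H := fun q b =>
    if h : ∃ i, ((ι i : (Finset.univ \ T : Finset (Q × Fin r))) : Q × Fin r) = (q, b) then
      x h.choose else 1
  have hlab1 : ∀ q, q ≠ 1 → lab (τ q).1 (τ q).2 = 1 := by
    intro q hq
    apply dif_neg
    rintro ⟨i, hi⟩
    have h1 := (Finset.mem_sdiff.1 (ι i).2).2
    apply h1
    rw [hi]
    exact Finset.mem_image_of_mem τ (Finset.mem_erase.2 ⟨hq, Finset.mem_univ _⟩)
  have hlab2 : ∀ i, ∃ q b, lab q b = x i := by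
    intro i
    refine ⟨(ι i : Q × Fin r).1, (ι i : Q × Fin r).2, ?_⟩
    have h : ∃ j, ((ι j : (Finset.univ \ T : Finset (Q × Fin r))) : Q × Fin r) =
        ((ι i : Q × Fin r).1, (ι i : Q × Fin r).2) := ⟨i, rfl⟩
    have h1 : lab (ι i : Q × Fin r).1 (ι i : Q × Fin r).2 = x h.choose := dif_pos h
    rw [h1]
    congr 1
    apply ι.injective
    exact Subtype.ext h.choose_spec
  refine ⟨gens s lab, ?_⟩
  rw [closure_le]
  rintro _ ⟨i, rfl⟩
  obtain ⟨q, b, hqb⟩ := hlab2 i
  rw [← hqb]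
  exact edge s lab n τ hτ hlab1 q b

/-- the base group as a subgroup -/
def base (H Q : Type) [Group H] [Group Q] : Subgroup (RegularWreathProduct H Q) where
  carrier := {w | w.right = 1}
  one_mem' := rfl
  mul_mem' := by
    intro a b ha hb
    show (a * b).right = 1
    rw [RegularWreathProduct.mul_right, show a.right = 1 from ha, show b.right = 1 from hb, one_mul]
  inv_mem' := by
    intro a ha
    show (a⁻¹).right = 1
    rw [RegularWreathProduct.inv_right, show a.right = 1 from ha, inv_one]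

/-- the value at one -/
def evh (H Q : Type) [Group H] [Group Q] : base H Q →* H where
  toFun w := (w : RegularWreathProduct H Q).left 1
  map_one' := rfl
  map_mul' := by
    rintro ⟨a, ha⟩ ⟨b, hb⟩
    show (a * b).left 1 = a.left 1 * b.left 1
    rw [RegularWreathProduct.mul_left, Pi.mul_apply, show a.right = 1 from ha, inv_one, one_mul]

theorem ev1_eq (K : Subgroup (RegularWreathProduct H Q)) :
    ev1 K = (K.subgroupOf (base H Q)).map (evh H Q) := by
  ext h
  constructor
  · rintro ⟨w, hw, hw1, rfl⟩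
    exact ⟨⟨w, hw1⟩, hw, rfl⟩
  · rintro ⟨⟨w, hw1⟩, hw, rfl⟩
    exact ⟨w, hw, hw1, rfl⟩

theorem dd_ev1 {K : Subgroup (RegularWreathProduct H Q)} {d : ℕ} (h : dd K d = ⊥) :
    dd (ev1 K) d = ⊥ := by
  rw [ev1_eq, ← map_dd]
  have h1 : dd (K.subgroupOf (base H Q)) d = ⊥ := by
    rw [← map_eq_bot_iff_of_injective _ (base H Q).subtype_injective, map_dd, eq_bot_iff, ← h]
    exact dd_mono (subgroupOf_map_subtype K (base H Q) ▸ inf_le_left) d
  rw [h1, Subgroup.map_bot]

theorem lcs_ev1 {K : Subgroup (RegularWreathProduct H Q)} {d : ℕ}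
    (h : K.lowerCentralSeries d = ⊥) : (ev1 K).lowerCentralSeries d = ⊥ := by
  rw [ev1_eq, ← map_lowerCentralSeries]
  have h1 : (K.subgroupOf (base H Q)).lowerCentralSeries d = ⊥ := by
    rw [← map_eq_bot_iff_of_injective _ (base H Q).subtype_injective, map_lowerCentralSeries,
      eq_bot_iff, ← h]
    exact lcs_mono (subgroupOf_map_subtype K (base H Q) ▸ inf_le_left) d
  rw [h1, Subgroup.map_bot]

end wr

end Pool.Agent.V7H85.BU
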