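import Pool.Agent.V7H85.BU.B
import Pool.Agent.V7H85.BU.C

set_option autoImplicit false

/-! # Free Burnside groups -/

namespace Pool.Agent.V7H85.BU

open Subgroup Pool.Agent.H32BU Pool.Agent.R669

/-- the generators of the free Burnside group -/
def bgen (r n : ℕ) (i : Fin r) : Bu r n := QuotientGroup.mk (FreeGroup.of i)

theorem closure_bgen (r n : ℕ) : closure (Set.range (bgen r n)) = ⊤ := by
  rw [eq_top_iff]
  rintro x -
  obtain ⟨w, rfl⟩ := QuotientGroup.mk_surjective x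
  induction w using FreeGroup.induction_on with
  | C1 => exact one_mem _
  | of i => exact subset_closure ⟨i, rfl⟩
  | inv_of i hi => exact inv_mem hi
  | mul a b ha hb => exact mul_mem ha hb

theorem bu_exp (r n : ℕ) (x : Bu r n) : x ^ n = 1 := x_LFD.2.2.2 r n x

theorem exists_hom {W : Type*} [Group W] {n : ℕ} (hW : ∀ x : W, x ^ n = 1) {r : ℕ}
    (e : Fin r → W) : ∃ F : Bu r n →* W, F.range = closure (Set.range e) := by
  let f : FreeGroup (Fin r) →* W := FreeGroup.lift e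
  have hker : Subgroup.normalClosure (Set.range fun w : FreeGroup (Fin r) => w ^ n) ≤ f.ker := by
    apply Subgroup.normalClosure_le_normal
    rintro _ ⟨w, rfl⟩
    simp [MonoidHom.mem_ker, hW]
  let F : Bu r n →* W := QuotientGroup.lift _ f hker
  refine ⟨F, ?_⟩
  rw [MonoidHom.range_eq_map, ← closure_bgen, MonoidHom.map_closure, ← Set.range_comp]
  congr 1
  apply congrArg
  funext i
  show f (FreeGroup.of i) = e i
  simp [f]

theorem dd_of_bu {W : Type*} [Group W] {n : ℕ} (hW : ∀ x : W, x ^ n = 1) {r d : ℕ}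
    (h : derivedSeries (Bu r n) d = ⊥) (e : Fin r → W) : dd (closure (Set.range e)) d = ⊥ := by
  obtain ⟨F, hF⟩ := exists_hom hW e
  rw [← hF, MonoidHom.range_eq_map, ← map_dd, dd_top, h, Subgroup.map_bot]

theorem lcs_of_bu {W : Type*} [Group W] {n : ℕ} (hW : ∀ x : W, x ^ n = 1) {r d : ℕ}
    (h : (⊤ : Subgroup (Bu r n)).lowerCentralSeries d = ⊥) (e : Fin r → W) :
    (closure (Set.range e)).lowerCentralSeries d = ⊥ := by
  obtain ⟨F, hF⟩ := exists_hom hW e
  rw [← hF, MonoidHom.range_eq_map, ← map_lowerCentralSeries, h, Subgroup.map_bot]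

theorem fin_ord {G : Type*} [Group G] {n : ℕ} (hn : 1 ≤ n) (hG : ∀ x : G, x ^ n = 1) (x : G) :
    IsOfFinOrder x := isOfFinOrder_iff_pow_eq_one.2 ⟨n, by omega, hG x⟩

theorem locFin_of_dd {n k : ℕ} (hn : 1 ≤ n) (h : derivedSeries (Bu (k + 1) n) k = ⊥) :
    LocFin n := fun _ _ hG =>
  lf_of_hyp (fin_ord hn hG) (hyp_of_dd fun a => dd_of_bu hG h a)

theorem locFin_of_lcs {n k : ℕ} (hn : 1 ≤ n)
    (h : (⊤ : Subgroup (Bu (k + 1) n)).lowerCentralSeries (2 ^ (k + 1) - 2) = ⊥) :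
    LocFin n := fun _ _ hG =>
  lf_of_hyp (fin_ord hn hG) (hyp_of_lcs fun a => lcs_of_bu hG h a)

section Q

variable {n m r : ℕ} {Q : Type} [Group Q] [Finite Q]

theorem locFin_of_Q (hn : 1 ≤ n) (hr : 1 ≤ r) (hQ : ∀ q : Q, q ^ m = 1) (s : Fin r → Q)
    (hs : closure (Set.range s) = ⊤)
    (h : derivedSeries (Bu r (m * n)) ((r - 1) * Nat.card Q) = ⊥) : LocFin n := by
  intro G _ hG
  refine lf_of_hyp (fin_ord hn hG) (hyp_of_dd (k := (r - 1) * Nat.card Q) fun a => ?_)
  obtain ⟨e, he⟩ := schreier hr s hs a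
  have h1 := dd_of_bu (wr_exp hG hQ) h e
  rw [eq_bot_iff, ← dd_ev1 h1]
  exact dd_mono he _

theorem locFin_of_Q_lcs (hn : 1 ≤ n) (hr : 1 ≤ r) (hQ : ∀ q : Q, q ^ m = 1) (s : Fin r → Q)
    (hs : closure (Set.range s) = ⊤)
    (h : (⊤ : Subgroup (Bu r (m * n))).lowerCentralSeries
      (2 ^ ((r - 1) * Nat.card Q + 1) - 2) = ⊥) : LocFin n := by
  intro G _ hG
  refine lf_of_hyp (fin_ord hn hG) (hyp_of_lcs (k := (r - 1) * Nat.card Q) fun a => ?_)
  obtain ⟨e, he⟩ := schreier hr s hs a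
  have h1 := lcs_of_bu (wr_exp hG hQ) h e
  rw [eq_bot_iff, ← lcs_ev1 h1]
  exact lcs_mono he _

theorem finite_of_Q (hr : 1 ≤ r) (hQ : ∀ q : Q, q ^ m = 1) (s : Fin r → Q)
    (hs : closure (Set.range s) = ⊤) (h : Finite (Bu r (m * n))) :
    Finite (Bu ((r - 1) * Nat.card Q + 1) n) := by
  obtain ⟨e, he⟩ := schreier hr s hs (bgen ((r - 1) * Nat.card Q + 1) n)
  obtain ⟨F, hF⟩ := exists_hom (wr_exp (bu_exp ((r - 1) * Nat.card Q + 1) n) hQ) e
  have h1 : Finite (closure (Set.range e)) := by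
    rw [← hF]
    exact Finite.of_surjective F.rangeRestrict F.rangeRestrict_surjective
  have h2 := ev1_finite (closure (Set.range e))
  rw [closure_bgen] at he
  have h3 : Finite (⊤ : Subgroup (Bu ((r - 1) * Nat.card Q + 1) n)) :=
    Finite.of_injective (inclusion he) (inclusion_injective he)
  exact Finite.of_equiv _ (Subgroup.topEquiv).toEquiv

end Q

theorem surj (r m n : ℕ) : ∃ F : Bu r (m * n) →* Bu r m, Function.Surjective F := by
  obtain ⟨F, hF⟩ := exists_hom (n := m * n) (W := Bu r m)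
    (fun x => by rw [pow_mul, bu_exp, one_pow]) (bgen r m)
  rw [closure_bgen] at hF
  exact ⟨F, MonoidHom.range_eq_top.1 hF⟩

theorem finite_card {r m n d : ℕ} (h : derivedSeries (Bu r (m * n)) (d * Nat.card (Bu r m)) = ⊥) :
    Finite (Bu r m) := by
  by_contra hinf
  have h0 : Nat.card (Bu r m) = 0 := by
    rw [Nat.card_eq_zero]
    exact Or.inr (not_finite_iff_infinite.1 hinf)
  rw [h0, mul_zero] at h
  have h1 : (⊤ : Subgroup (Bu r (m * n))) = ⊥ := h
  obtain ⟨F, hF⟩ := surj r m n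
  apply hinf
  have h2 : Subsingleton (Bu r m) := by
    constructor
    intro a b
    obtain ⟨a, rfl⟩ := hF a
    obtain ⟨b, rfl⟩ := hF b
    have ha : a ∈ (⊥ : Subgroup (Bu r (m * n))) := h1 ▸ mem_top a
    have hb : b ∈ (⊥ : Subgroup (Bu r (m * n))) := h1 ▸ mem_top b
    rw [mem_bot] at ha hb
    rw [ha, hb]
  infer_instance

/-- **The main criterion.** -/
theorem locFin_main {r m n : ℕ} (hn : 1 ≤ n) (hr : 1 ≤ r)
    (h : derivedSeries (Bu r (m * n)) ((r - 1) * Nat.card (Bu r m)) = ⊥) : LocFin n := by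
  have := finite_card h
  exact locFin_of_Q hn hr (bu_exp r m) (bgen r m) (closure_bgen r m) h

theorem locFin_sq {m n : ℕ} (hm : 1 ≤ m) (hn : 1 ≤ n)
    (h : derivedSeries (Bu 2 (m * n)) (m ^ 2) = ⊥) : LocFin n := by
  have : NeZero m := ⟨by omega⟩
  let Q := Multiplicative (ZMod m × ZMod m)
  have hQ : ∀ q : Q, q ^ m = 1 := by
    intro q
    have h1 : m • (Multiplicative.toAdd q) = 0 := by
      rw [nsmul_eq_mul]
      ext
      · simp
      · simp
    exact h1
  let s : Fin 2 → Q := ![Multiplicative.ofAdd (1, 0), Multiplicative.ofAdd (0, 1)]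
  have hs : Subgroup.closure (Set.range s) = ⊤ := by
    rw [eq_top_iff]
    rintro q -
    have h0 : s 0 ∈ Subgroup.closure (Set.range s) := Subgroup.subset_closure ⟨0, rfl⟩
    have h1 : s 1 ∈ Subgroup.closure (Set.range s) := Subgroup.subset_closure ⟨1, rfl⟩
    have h2 : q = s 0 ^ (Multiplicative.toAdd q).1.val * s 1 ^ (Multiplicative.toAdd q).2.val := by
      apply Multiplicative.toAdd.injective
      show Multiplicative.toAdd q = (Multiplicative.toAdd q).1.val • ((1 : ZMod m), (0 : ZMod m)) +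
        (Multiplicative.toAdd q).2.val • ((0 : ZMod m), (1 : ZMod m))
      ext
      · simp
      · simp
    rw [h2]
    exact mul_mem (pow_mem h0 _) (pow_mem h1 _)
  have hcard : Nat.card Q = m ^ 2 := by
    show Nat.card (ZMod m × ZMod m) = m ^ 2
    rw [Nat.card_prod, Nat.card_zmod, sq]
  refine locFin_of_Q (Q := Q) hn (by norm_num) hQ s hs ?_
  rw [hcard]
  simpa using h

end Pool.Agent.V7H85.BU
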