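import Pool.Agent.V7H85.BU.D

set_option autoImplicit false

/-! # Small derived length or class, and Sylow subgroups of free Burnside groups -/

namespace Pool.Agent.V7H85.BU

open Subgroup Pool.Agent.H32BU Pool.Agent.R669
open scoped commutatorElement

/-- derived length at most `k` or class at most `2 ^ (k + 1) - 2` -/
def Small {G : Type*} [Group G] (k : ℕ) (H : Subgroup G) : Prop :=
  dd H k = ⊥ ∨ H.lowerCentralSeries (2 ^ (k + 1) - 2) = ⊥

section small
variable {G G' : Type*} [Group G] [Group G']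

theorem Small.mono {k : ℕ} {H K : Subgroup G} (h : H ≤ K) (hK : Small k K) : Small k H := by
  rcases hK with hK | hK
  · exact Or.inl (eq_bot_iff.2 (hK ▸ dd_mono h k))
  · exact Or.inr (eq_bot_iff.2 (hK ▸ lcs_mono h _))

theorem Small.map {k : ℕ} {H : Subgroup G} (hH : Small k H) (f : G →* G') :
    Small k (H.map f) := by
  rcases hH with h | h
  · exact Or.inl (by rw [← map_dd, h, Subgroup.map_bot])
  · exact Or.inr (by rw [← map_lowerCentralSeries, h, Subgroup.map_bot])

theorem Small.of_map {k : ℕ} {H : Subgroup G} (f : G →* G') (hf : Function.Injective f)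
    (hH : Small k (H.map f)) : Small k H := by
  rcases hH with h | h
  · rw [← map_dd, map_eq_bot_iff_of_injective _ hf] at h
    exact Or.inl h
  · rw [← map_lowerCentralSeries, map_eq_bot_iff_of_injective _ hf] at h
    exact Or.inr h

theorem small_iff (k : ℕ) (H : Subgroup G) : Small k H ↔
    (derivedSeries H k = ⊥ ∨ (⊤ : Subgroup H).lowerCentralSeries (2 ^ (k + 1) - 2) = ⊥) := by
  unfold Small
  rw [dd_eq_bot_iff]
  refine or_congr Iff.rfl ?_
  rw [← map_eq_bot_iff_of_injective _ H.subtype_injective, map_lowerCentralSeries,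
    ← MonoidHom.range_eq_map, H.range_subtype]

theorem small_top (k : ℕ) : Small k (⊤ : Subgroup G) ↔
    (derivedSeries G k = ⊥ ∨ (⊤ : Subgroup G).lowerCentralSeries (2 ^ (k + 1) - 2) = ⊥) := by
  unfold Small
  rw [dd_top]

/-- **Growth of the derived length and of the class.** -/
theorem exists_not_small [Nontrivial G]
    (hG : ∀ A : Subgroup G, A.Normal → (∀ x ∈ A, ∀ y ∈ A, x * y = y * x) → A = ⊥) (k : ℕ) :
    ∃ (a : Fin (k + 1) → G) (x : G), x ≠ 1 ∧ x ∈ dd (closure (Set.range a)) k ∧
      x ∈ (closure (Set.range a)).lowerCentralSeries (2 ^ (k + 1) - 2) := by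
  induction k with
  | zero =>
    obtain ⟨x, hx⟩ := exists_ne (1 : G)
    have h1 : x ∈ closure (Set.range fun _ : Fin (0 + 1) => x) := subset_closure ⟨0, rfl⟩
    exact ⟨fun _ => x, x, hx, h1, h1⟩
  | succ k ih =>
    obtain ⟨a, x, hx1, hx, hx'⟩ := ih
    obtain ⟨h, hh⟩ := exists_conj hG hx1
    refine ⟨Fin.cons h a, ⁅x, h * x * h⁻¹⁆, hh, ?_, ?_⟩
    · have h1 : x ∈ dd (closure (Set.range (Fin.cons h a : Fin (k + 2) → G))) k :=
        dd_mono (mem_cons_left h a) k hx
      exact commutator_mem_commutator h1 (conj_dd _ k (mem_cons_zero h a) h1)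
    · set F := closure (Set.range (Fin.cons h a : Fin (k + 2) → G)) with hF
      set c := 2 ^ (k + 1) - 2 with hc
      have hpow : 2 ≤ 2 ^ (k + 1) := by
        calc 2 = 2 ^ 1 := rfl
          _ ≤ 2 ^ (k + 1) := Nat.pow_le_pow_right (by norm_num) (by omega)
      have h1 : x ∈ F.lowerCentralSeries c := (lcs_mono (mem_cons_left h a) c) hx'
      have h2 : ⁅x, h⁆ ∈ F.lowerCentralSeries (c + 1) :=
        commutator_mem_commutator h1 (mem_cons_zero h a)
      have h3 : ⁅x, ⁅x, h⁆⁻¹⁆ ∈ F.lowerCentralSeries (c + (c + 1) + 1) :=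
        Pool.Agent.W465.SG.comm_lcs F (c + 1) c (commutator_mem_commutator h1 (inv_mem h2))
      have e1 : c + (c + 1) + 1 = 2 ^ (k + 1 + 1) - 2 := by
        rw [pow_succ 2 (k + 1)]
        omega
      have e2 : ⁅x, h * x * h⁻¹⁆ = ⁅x, ⁅x, h⁆⁻¹⁆ := by
        simp only [commutatorElement_def]
        group
      rw [e1] at h3
      rw [e2]
      exact h3

theorem hyp_of_small {k : ℕ} (h : ∀ a : Fin (k + 1) → G, Small k (closure (Set.range a))) :
    Hyp G := by
  intro N _ hN
  by_contra hcon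
  push Not at hcon
  have hnt : Nontrivial (G ⧸ N) := QuotientGroup.nontrivial_iff.2 hN
  obtain ⟨a, x, hx1, hx, hx'⟩ := exists_not_small (G := G ⧸ N) (fun A hA hab => by
    by_contra hne
    obtain ⟨x, hx, y, hy, hxy⟩ := hcon A hA hne
    exact hxy (hab x hx y hy)) k
  obtain ⟨b, hb⟩ := lift_family N a
  have h1 := (h b).map (QuotientGroup.mk' N)
  rw [hb] at h1
  rcases h1 with h1 | h1
  · rw [h1, mem_bot] at hx
    exact hx1 hx
  · rw [h1, mem_bot] at hx'
    exact hx1 hx'

end small

/-- a Sylow subgroup is mapped onto a quotient that is a `p`-group -/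
theorem sylow_onto {L E : Type*} [Group L] [Group E] [Finite L] {p : ℕ} [Fact p.Prime]
    (hE : IsPGroup p E) (f : L →* E) (hf : Function.Surjective f) (P : Sylow p L) :
    (P : Subgroup L).map f = ⊤ := by
  have hfin : Finite E := Finite.of_surjective f hf
  have h1 : ((P : Subgroup L).map f).index ∣ (P : Subgroup L).index :=
    Subgroup.index_map_dvd (P : Subgroup L) hf
  obtain ⟨n, hn⟩ := hE.index ((P : Subgroup L).map f)
  have h2 : ¬ p ∣ (P : Subgroup L).index := P.not_dvd_index
  rcases n with _ | n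
  · rw [pow_zero, index_eq_one] at hn
    exact hn
  · exfalso
    apply h2
    refine dvd_trans ?_ h1
    rw [hn]
    exact dvd_pow_self p (by omega)

/-- the image of a subgroup in a `p`-group is an image of a subgroup of a Sylow subgroup -/
theorem small_of_sylow {B H : Type*} [Group B] [Finite B] [Group H] {p k : ℕ} [Fact p.Prime]
    (hH : IsPGroup p H) (L : Subgroup B) (φ : L →* H)
    (h : ∀ P : Sylow p B, Small k (P : Subgroup B)) : Small k φ.range := by
  obtain ⟨P0⟩ : Nonempty (Sylow p L) := inferInstance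
  have hE : IsPGroup p φ.range := hH.to_subgroup φ.range
  have h1 := sylow_onto hE φ.rangeRestrict φ.rangeRestrict_surjective P0
  have h2 : (P0 : Subgroup L).map φ = φ.range := by
    have h3 := congrArg (fun K => Subgroup.map φ.range.subtype K) h1
    simp only [Subgroup.map_map] at h3
    rw [← MonoidHom.range_eq_map, Subgroup.range_subtype] at h3
    exact h3
  have h4 : IsPGroup p ((P0 : Subgroup L).map L.subtype) := P0.isPGroup'.map _
  obtain ⟨P, hP⟩ := h4.exists_le_sylow
  have h5 : Small k (P0 : Subgroup L) :=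
    Small.of_map L.subtype L.subtype_injective ((h P).mono hP)
  rw [← h2]
  exact h5.map φ

theorem locFin_sylow {p k m r : ℕ} (hp : p.Prime) (hr : 1 ≤ r) (hfin : Finite (Bu r (m * p ^ k)))
    (h : ∀ P : Sylow p (Bu r (m * p ^ k)),
      Small ((r - 1) * Nat.card (Bu r m)) (P : Subgroup (Bu r (m * p ^ k)))) :
    LocFin (p ^ k) := by
  intro G _ hG
  have : Fact p.Prime := ⟨hp⟩
  have hQ : Finite (Bu r m) := by
    obtain ⟨F, hF⟩ := surj r m (p ^ k)
    exact Finite.of_surjective F hF
  have hpG : IsPGroup p G := fun g => ⟨k, hG g⟩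
  refine lf_of_hyp (fin_ord (Nat.pos_of_ne_zero (pow_ne_zero k hp.ne_zero)) hG)
    (hyp_of_small (k := (r - 1) * Nat.card (Bu r m)) fun a => ?_)
  obtain ⟨e, he⟩ := schreier hr (bgen r m) (closure_bgen r m) a
  obtain ⟨F, hF⟩ := exists_hom (wr_exp hG (bu_exp r m)) e
  let L : Subgroup (Bu r (m * p ^ k)) := (base G (Bu r m)).comap F
  let φ : L →* G := (evh G (Bu r m)).comp (F.subgroupComap (base G (Bu r m)))
  have h1 := small_of_sylow hpG L φ h
  refine h1.mono (he.trans ?_)
  rw [← hF]
  rintro x ⟨w, ⟨b, rfl⟩, hw1, rfl⟩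
  exact ⟨⟨b, hw1⟩, rfl⟩

theorem locFin_of_small {n k : ℕ} (hn : 1 ≤ n) (h : Small k (⊤ : Subgroup (Bu (k + 1) n))) :
    LocFin n := fun G _ hG =>
  lf_of_hyp (fin_ord hn hG) (hyp_of_small fun a => by
    obtain ⟨F, hF⟩ := exists_hom hG a
    rw [← hF, MonoidHom.range_eq_map]
    exact h.map F)

end Pool.Agent.V7H85.BU
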