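import Pool.Agent.V7H85.BU.E

set_option autoImplicit false

/-! # Transfer to all universes; soluble groups -/

namespace Pool.Agent.V7H85.BU

open Subgroup Pool.Agent.H32BU Pool.Agent.R669

universe u

theorem countable_closure {G : Type*} [Group G] (S : Set G) (hS : S.Finite) :
    Countable (Subgroup.closure S) := by
  have : Countable S := hS.countable.to_subtype
  have h1 : (FreeGroup.lift (Subtype.val : S → G)).range = Subgroup.closure S := by
    rw [FreeGroup.range_lift_eq_closure, Subtype.range_coe]
  rw [← h1]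
  exact Function.Surjective.countable
    (FreeGroup.lift (Subtype.val : S → G)).rangeRestrict_surjective

theorem finite_of_small {G : Type u} [Group G] (ht : ∀ x : G, IsOfFinOrder x) {k : ℕ}
    (h : ∀ a : Fin (k + 1) → G, Small k (Subgroup.closure (Set.range a))) (S : Set G)
    (hS : S.Finite) : Finite (Subgroup.closure S) := by
  have hc := countable_closure S hS
  have hsm : _root_.Small.{0} (Subgroup.closure S) := inferInstance
  let f : Shrink.{0} (Subgroup.closure S) ≃* Subgroup.closure S := Shrink.mulEquiv
  let g : Shrink.{0} (Subgroup.closure S) →* G := (Subgroup.closure S).subtype.comp f.toMonoidHom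
  have hg : Function.Injective g := (Subgroup.subtype_injective _).comp f.injective
  have h1 : LF (Shrink.{0} (Subgroup.closure S)) := by
    refine lf_of_hyp (fun x => ?_) (hyp_of_small (k := k) fun a => ?_)
    · exact (hg.isOfFinOrder_iff (f := g)).1 (ht (g x))
    · refine Small.of_map g hg ?_
      rw [MonoidHom.map_closure, ← Set.range_comp]
      exact h (g ∘ a)
  classical
  -- generators
  have : Finite S := hS
  have := Fintype.ofFinite S
  let T : Finset (Shrink.{0} (Subgroup.closure S)) := Finset.univ.image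
    fun s : S => f.symm ⟨s.1, Subgroup.subset_closure s.2⟩
  have h2 := h1 T
  have h3 : Subgroup.closure (T : Set (Shrink.{0} (Subgroup.closure S))) = ⊤ := by
    apply Subgroup.map_injective hg
    rw [MonoidHom.map_closure, ← MonoidHom.range_eq_map]
    have h4 : g.range = Subgroup.closure S := by
      ext x
      constructor
      · rintro ⟨y, rfl⟩
        exact (f y).2
      · intro hx
        exact ⟨f.symm ⟨x, hx⟩, by simp [g, f]⟩
    rw [h4]
    congr 1
    ext x
    constructor
    · rintro ⟨y, hy, rfl⟩
      obtain ⟨s, -, rfl⟩ := Finset.mem_image.1 (Finset.mem_coe.1 hy)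
      simp [g, f]
    · intro hx
      refine ⟨f.symm ⟨x, Subgroup.subset_closure hx⟩, Finset.mem_coe.2
        (Finset.mem_image.2 ⟨⟨x, hx⟩, Finset.mem_univ _, rfl⟩), by simp [g, f]⟩
  rw [h3] at h2
  have h5 : Finite (Shrink.{0} (Subgroup.closure S)) :=
    Finite.of_equiv _ (Subgroup.topEquiv).toEquiv
  exact Finite.of_equiv _ f.toEquiv

/-- soluble groups are hyperabelian -/
theorem hyp_of_solvable {G : Type*} [Group G] {d : ℕ} (h : derivedSeries G d = ⊥) : Hyp G := by
  intro N _ hN
  have h1 : derivedSeries (G ⧸ N) d = ⊥ := by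
    rw [← map_derivedSeries_eq (QuotientGroup.mk'_surjective N), h, Subgroup.map_bot]
  have hnt : Nontrivial (G ⧸ N) := QuotientGroup.nontrivial_iff.2 hN
  classical
  have hex : ∃ j, derivedSeries (G ⧸ N) j = ⊥ := ⟨d, h1⟩
  have h2 := Nat.find_spec hex
  set j := Nat.find hex with hj
  rcases hj0 : j with _ | i
  · rw [hj0] at h2
    exact absurd h2 (by
      rw [derivedSeries_zero]
      exact top_ne_bot)
  · rw [hj0] at h2
    have h3 : derivedSeries (G ⧸ N) i ≠ ⊥ := Nat.find_min hex (by omega)
    refine ⟨derivedSeries (G ⧸ N) i, inferInstance, h3, fun x hx y hy => ?_⟩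
    have h4 := Subgroup.commutator_mem_commutator hx hy
    rw [← derivedSeries_succ, h2, mem_bot] at h4
    exact commutatorElement_eq_one_iff_mul_comm.1 h4

/-- a finitely generated periodic soluble group is finite -/
theorem finite_of_solvable {G : Type} [Group G] (ht : ∀ x : G, IsOfFinOrder x) {r : ℕ}
    (a : Fin r → G) (ha : Subgroup.closure (Set.range a) = ⊤) {d : ℕ}
    (h : derivedSeries G d = ⊥) : Finite G := by
  classical
  have h1 := lf_of_hyp ht (hyp_of_solvable h) (Finset.univ.image a)
  rw [Finset.coe_image, Finset.coe_univ, Set.image_univ, ha] at h1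
  exact Finite.of_equiv _ (Subgroup.topEquiv).toEquiv

/-- **The main criterion, without Sylow subgroups.** -/
theorem locFin_small {r m n : ℕ} (hn : 1 ≤ n) (hr : 1 ≤ r)
    (h : Small ((r - 1) * Nat.card (Bu r m)) (⊤ : Subgroup (Bu r (m * n)))) : LocFin n := by
  have hQ : Finite (Bu r m) := by
    by_contra hinf
    have h0 : Nat.card (Bu r m) = 0 := by
      rw [Nat.card_eq_zero]
      exact Or.inr (not_finite_iff_infinite.1 hinf)
    rw [h0, mul_zero] at h
    have h1 : (⊤ : Subgroup (Bu r (m * n))) = ⊥ := h.elim (fun h => h) (fun h => h)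
    obtain ⟨F, hF⟩ := surj r m n
    apply hinf
    have h2 : Subsingleton (Bu r m) := by
      constructor
      intro a b
      obtain ⟨a, rfl⟩ := hF a
      obtain ⟨b, rfl⟩ := hF b
      have ha : a ∈ (⊥ : Subgroup (Bu r (m * n))) := h1 ▸ mem_top a
      have hb : b ∈ (⊥ : Subgroup (Bu r (m * n))) := h1 ▸ mem_top b
      rw [mem_bot] at ha hb
      rw [ha, hb]
    infer_instance
  intro G _ hG
  refine lf_of_hyp (fin_ord hn hG)
    (hyp_of_small (k := (r - 1) * Nat.card (Bu r m)) fun a => ?_)
  obtain ⟨e, he⟩ := schreier hr (bgen r m) (closure_bgen r m) a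
  obtain ⟨F, hF⟩ := exists_hom (wr_exp hG (bu_exp r m)) e
  have h1 : Small ((r - 1) * Nat.card (Bu r m)) F.range := by
    rw [MonoidHom.range_eq_map]
    exact h.map F
  refine Small.mono he ?_
  rw [← hF, ev1_eq]
  refine Small.map ?_ _
  refine Small.of_map (base G (Bu r m)).subtype (base G (Bu r m)).subtype_injective ?_
  exact h1.mono (subgroupOf_map_subtype F.range (base G (Bu r m)) ▸ inf_le_left)

end Pool.Agent.V7H85.BU
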